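import Mathlib

namespace Pool.Agent.Results.MP_1304b2_co.Formula
open Finset SimpleGraph

/-- Normal-play outcomes. Players are Booleans (`true` = White). `Out mv true a p`: player `a`,
to move at `p`, can force a win. `Out mv false a p`: player `a`, to move at `p`, loses. -/
inductive Out {P : Type} (mv : Bool → P → P → Prop) : Bool → Bool → P → Prop
  | win (a p q) : mv a p q → Out mv false (!a) q → Out mv true a p
  | lose (a p) : (∀ q, mv a p q → Out mv true (!a) q) → Out mv false a p

/-- `+1` for White, `-1` for Black. -/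
def sg (a : Bool) : ℤ := if a then 1 else -1

variable {V : Type} [DecidableEq V]

/-- `v` is a leaf (degree at most one) of the subgraph induced on `S`. -/
def Leaf (T : SimpleGraph V) (S : Finset V) (v : V) : Prop :=
  v ∈ S ∧ ∀ u ∈ S, ∀ w ∈ S, T.Adj v u → T.Adj v w → u = w

/-- Moves in the disjunctive sum (leaf-removal game on the remaining set `S`) + (integer `k`). -/
def Mv (T : SimpleGraph V) (col : V → Bool) (a : Bool) (p q : Finset V × ℤ) : Prop :=
  (∃ v, Leaf T p.1 v ∧ col v = a ∧ q = (p.1.erase v, p.2)) ∨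
    (0 < sg a * p.2 ∧ q = (p.1, p.2 - sg a))

/-- `L(T) = n`: in `T + (-n)` whoever moves first loses. -/
def HasValue [Fintype V] (T : SimpleGraph V) (col : V → Bool) (n : ℤ) : Prop :=
  ∀ a, Out (Mv T col) false a (univ, -n)

/-- `Bad T col v w`: some path `v, w, …` ends in three vertices `x, y, z` with
`col x = col y ≠ col z`. -/
inductive Bad (T : SimpleGraph V) (col : V → Bool) : V → V → Prop
  | base (v w z) : T.Adj v w → T.Adj w z → z ≠ v → col v = col w → col z ≠ col w → Bad T col v w
  | step (v w z) : T.Adj v w → T.Adj w z → z ≠ v → Bad T col w z → Bad T col v w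

/-- A vertex is essential if it has at most one bad neighbour. -/
def Ess (T : SimpleGraph V) (col : V → Bool) (v : V) : Prop :=
  ∀ u w, Bad T col v u → Bad T col v w → u = w

theorem out_excl {P : Type} {mv : Bool → P → P → Prop} {b a p} (h : Out mv b a p) :
    ¬ Out mv (!b) a p := by
  induction h with
  | win a p q h _ ih =>
    intro h'
    cases h' with
    | lose _ _ h2 => exact ih (h2 q h)
  | lose a p _ ih =>
    intro h'
    cases h' with
    | win _ _ q h1 h2 => exact ih q h1 h2

theorem sg_not (a : Bool) : sg (!a) = - sg a := by cases a <;> simp [sg]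
theorem sg_sq (a : Bool) : sg a * sg a = 1 := by cases a <;> simp [sg]

theorem out_of {P : Type} (mv : Bool → P → P → Prop) (μ : P → ℕ) (ψ : P → ℤ)
    (h0 : ∀ a p q, mv a p q → μ q < μ p)
    (h1 : ∀ a p q, mv a p q → sg a * ψ q ≤ sg a * ψ p - 1)
    (h2 : ∀ a p, 0 < sg a * ψ p → ∃ q, mv a p q ∧ sg a * ψ p - 1 ≤ sg a * ψ q) (p : P) :
    ∀ a, (0 < sg a * ψ p → Out mv true a p) ∧ (sg a * ψ p ≤ 0 → Out mv false a p) := by
  induction' h : μ p using Nat.strong_induction_on with n ih generalizing p
  subst h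
  intro a
  constructor
  · intro hp
    obtain ⟨q, hq, hq'⟩ := h2 a p hp
    refine Out.win a p q hq ((ih _ (h0 _ _ _ hq) q rfl _).2 ?_)
    rw [sg_not]; linarith
  · intro hp
    refine Out.lose a p fun q hq => (ih _ (h0 _ _ _ hq) q rfl _).1 ?_
    have := h1 _ _ _ hq
    rw [sg_not]; linarith

inductive BS (T : SimpleGraph V) (col : V → Bool) (S : Finset V) : V → V → Prop
  | base (v w z) : v ∈ S → w ∈ S → z ∈ S → T.Adj v w → T.Adj w z → z ≠ v → col v = col w →
      col z ≠ col w → BS T col S v w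
  | step (v w z) : v ∈ S → T.Adj v w → T.Adj w z → z ≠ v → BS T col S w z → BS T col S v w

def ES (T : SimpleGraph V) (col : V → Bool) (S : Finset V) (v : V) : Prop :=
  v ∈ S ∧ ∀ u w, BS T col S v u → BS T col S v w → u = w

variable {T : SimpleGraph V} {col : V → Bool}

omit [DecidableEq V] in
theorem BS.mem {S v w} (h : BS T col S v w) : v ∈ S ∧ w ∈ S ∧ T.Adj v w := by
  induction h with
  | base v w z a b c d => exact ⟨a, b, d⟩
  | step v w z a b c d e ih => exact ⟨a, ih.1, b⟩

omit [DecidableEq V] in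
theorem BS.mono {S S' v w} (hs : S ⊆ S') (h : BS T col S v w) : BS T col S' v w := by
  induction h with
  | base v w z a b c d e f g i => exact .base v w z (hs a) (hs b) (hs c) d e f g i
  | step v w z a b c d e ih => exact .step v w z (hs a) b c d ih

omit [DecidableEq V] in
theorem BS.next {S v w} (h : BS T col S v w) : ∃ z ∈ S, T.Adj w z ∧ z ≠ v := by
  cases h with
  | base _ _ z a b c d e f => exact ⟨z, c, e, f⟩
  | step _ _ z a b c d e => exact ⟨z, e.mem.2.1, c, d⟩

omit [DecidableEq V] in
theorem not_BS_leaf {S v l} (hl : Leaf T S l) : ¬ BS T col S v l := fun h => by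
  obtain ⟨z, h1, h2, h3⟩ := h.next
  exact h3 (hl.2 _ h1 _ h.mem.1 h2 h.mem.2.2.symm)

omit [DecidableEq V] in
theorem par_unique (hT : T.IsTree) (r : V) {a b c : V} (hb : T.Adj a b) (hc : T.Adj a c)
    (h1 : T.dist r b < T.dist r a) (h2 : T.dist r c < T.dist r a) : b = c := by
  have e1 := hT.dist_eq_dist_add_one_of_adj r hb
  have e2 := hT.dist_eq_dist_add_one_of_adj r hc
  obtain ⟨p, -, hp⟩ := hT.connected.exists_path_of_dist r b
  obtain ⟨q, -, hq⟩ := hT.connected.exists_path_of_dist r c
  have p1 : (p.concat hb.symm).IsPath :=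
    Walk.isPath_of_length_eq_dist _ (by rw [Walk.length_concat]; omega)
  have q1 : (q.concat hc.symm).IsPath :=
    Walk.isPath_of_length_eq_dist _ (by rw [Walk.length_concat]; omega)
  have := Subtype.mk.inj <| hT.isAcyclic.subsingleton_path r a |>.elim ⟨_, p1⟩ ⟨_, q1⟩
  have h := congrArg Walk.penultimate this
  simpa using h

omit [DecidableEq V] in
/-- not bad from `v` into `w` makes `w` essential -/
theorem ES_of_not {S v w} (hv : v ∈ S) (hw : w ∈ S) (ha : T.Adj v w) (h : ¬ BS T col S v w) :
    (∀ z, BS T col S w z → z = v) ∧ ES T col S w := by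
  have : ∀ z, BS T col S w z → z = v := fun z hz => by
    by_contra hn
    exact h (.step v w z hv ha hz.mem.2.2 hn hz)
  exact ⟨this, hw, fun a b ha hb => (this a ha).trans (this b hb).symm⟩

/-- structure of an edge that stops being bad when the leaf `l` is removed -/
theorem lost (hT : T.IsTree) {S l} (hl : Leaf T S l) {v w} (h : BS T col S v w) (hv : v ≠ l)
    (hn : ¬ BS T col (S.erase l) v w) :
    T.dist l w < T.dist l v ∧ ¬ (col v = col l ∧ col w = col l) ∧
    (col v = col l → ∃ z, z ≠ v ∧ BS T col S w z) ∧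
    ∃ x y, x ∈ S ∧ y ∈ S ∧ x ≠ l ∧ T.Adj x y ∧ T.Adj y l ∧ col x ≠ col l ∧ col y ≠ col l ∧
      ¬ BS T col (S.erase l) x y := by
  induction h with
  | base v w z a b c d e f g i =>
    have hw : w ≠ l := by
      rintro rfl
      exact not_BS_leaf hl (BS.base v w z a b c d e f g i)
    have hz : z = l := by
      by_contra hz
      exact hn (.base v w z (by simp [*]) (by simp [*]) (by simp [*]) d e f g i)
    subst hz
    have e1 := hT.dist_eq_dist_add_one_of_adj z d
    have e2 := hT.dist_eq_dist_add_one_of_adj z e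
    rw [dist_self] at e2
    refine ⟨?_, fun h => i h.2.symm, fun h => absurd (h.symm.trans g) i,
      v, w, a, b, hv, d, e, fun h => i (h.symm.trans g), fun h => i h.symm, hn⟩
    by_contra hc
    exact f (par_unique hT z e d.symm (by rw [dist_self]; omega) (by omega))
  | step v w z a b c d e ih =>
    have hw : w ≠ l := by
      rintro rfl
      exact not_BS_leaf hl (BS.step v w z a b c d e)
    have hz : z ≠ l := by
      rintro rfl
      exact not_BS_leaf hl e
    have hn' : ¬ BS T col (S.erase l) w z := fun h => hn (.step v w z (by simp [*]) b c d h)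
    obtain ⟨i1, i2, -, i4⟩ := ih hw hn'
    have e1 := hT.dist_eq_dist_add_one_of_adj l b
    refine ⟨?_, ?_, fun _ => ⟨z, d, e⟩, i4⟩
    · by_contra hc
      exact d (par_unique hT l c b.symm i1 (by omega))
    · rintro ⟨h1, h2⟩
      refine hn (.base v w z (by simp [*]) (by simp [hw, e.mem.1]) (by simp [hz, e.mem.2.1]) b c d
        (h1.trans h2.symm) fun h3 => i2 ⟨h2, h3.trans h2⟩)

theorem ES_erase {S l v} (h : ES T col S v) (hv : v ≠ l) : ES T col (S.erase l) v :=
  ⟨by simp [hv, h.1], fun u w a b => h.2 u w (a.mono (erase_subset _ _)) (b.mono (erase_subset _ _))⟩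

omit [DecidableEq V] in
theorem ES_leaf {S l} (hl : Leaf T S l) : ES T col S l :=
  ⟨hl.1, fun u w a b => hl.2 u a.mem.2.1 w b.mem.2.1 a.mem.2.2 b.mem.2.2⟩

/-- a newly essential vertex has a lost edge and a second bad edge -/
theorem new_ess {S l v} (h : ES T col (S.erase l) v) (hn : ¬ ES T col S v) :
    ∃ w u, BS T col S v w ∧ ¬ BS T col (S.erase l) v w ∧ BS T col S v u ∧ u ≠ w := by
  have hv : v ∈ S := mem_of_mem_erase h.1
  have : ∃ u w, BS T col S v u ∧ BS T col S v w ∧ u ≠ w := by
    by_contra hc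
    push Not at hc
    exact hn ⟨hv, hc⟩
  obtain ⟨u, w, h1, h2, h3⟩ := this
  by_cases hw : BS T col (S.erase l) v w
  · exact ⟨u, w, h1, fun hu => h3 (h.2 _ _ hu hw), h2, h3.symm⟩
  · exact ⟨w, u, h2, hw, h1, h3⟩

open Classical in
noncomputable def EE (T : SimpleGraph V) (col : V → Bool) (S : Finset V) : Finset V :=
  S.filter (ES T col S)

omit [DecidableEq V] in
theorem mem_EE {S v} : v ∈ EE T col S ↔ ES T col S v := by
  simp only [EE, mem_filter, and_iff_right_iff_imp]; exact fun h => h.1

omit [DecidableEq V] in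
theorem sum_le_of_inj (N : Finset V) (a : Bool) (R : V → V → Prop)
    (h1 : ∀ v ∈ N, col v = a → ∃ w ∈ N, col w ≠ a ∧ R v w)
    (h2 : ∀ v ∈ N, ∀ v' ∈ N, ∀ w, col v = a → col v' = a → R v w → R v' w → v = v') :
    sg a * ∑ v ∈ N, sg (col v) ≤ 0 := by
  classical
  choose! f hf using h1
  have hc : (N.filter (col · = a)).card ≤ (N.filter (¬ col · = a)).card := by
    refine card_le_card_of_injOn f ?_ ?_
    · intro v hv
      simp only [coe_filter, Set.mem_setOf_eq] at hv ⊢
      exact ⟨(hf v hv.1 hv.2).1, (hf v hv.1 hv.2).2.1⟩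
    · intro v hv v' hv' e
      simp only [coe_filter, Set.mem_setOf_eq] at hv hv'
      exact h2 v hv.1 v' hv'.1 _ hv.2 hv'.2 (hf v hv.1 hv.2).2.2 (e ▸ (hf v' hv'.1 hv'.2).2.2)
  rw [mul_sum, ← sum_filter_add_sum_filter_not N (col · = a)]
  rw [sum_congr rfl (g := fun _ => (1 : ℤ)), sum_congr (s₁ := N.filter (¬ col · = a)) rfl
    (g := fun _ => (-1 : ℤ))]
  · simp only [sum_const, nsmul_eq_mul]; push_cast; omega
  · intro v hv
    have : col v = !a := by
      have := (mem_filter.1 hv).2
      revert this; cases col v <;> cases a <;> simp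
    rw [this, sg_not, mul_neg, sg_sq]
  · intro v hv
    rw [(mem_filter.1 hv).2, sg_sq]

noncomputable def phi (T : SimpleGraph V) (col : V → Bool) (S : Finset V) : ℤ :=
  ∑ v ∈ EE T col S, sg (col v)

theorem phi_erase {S l} (hl : Leaf T S l) :
    phi T col (S.erase l) = phi T col S - sg (col l) +
      ∑ v ∈ EE T col (S.erase l) \ EE T col S, sg (col v) := by
  have h1 : (EE T col S).erase l ⊆ EE T col (S.erase l) := fun v hv => by
    rw [mem_erase, mem_EE] at hv
    exact mem_EE.2 (ES_erase hv.2 hv.1)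
  have h2 : EE T col (S.erase l) \ EE T col S = EE T col (S.erase l) \ (EE T col S).erase l := by
    ext v
    simp only [mem_sdiff, mem_erase, mem_EE]
    constructor
    · exact fun h => ⟨h.1, fun h' => h.2 h'.2⟩
    · exact fun h => ⟨h.1, fun h' => h.2 ⟨(mem_erase.1 h.1.1).1, h'⟩⟩
  have h3 := sum_sdiff (f := fun v => sg (col v)) h1
  have h4 := add_sum_erase (EE T col S) (fun v => sg (col v)) (mem_EE.2 (ES_leaf hl))
  rw [h2]; unfold phi; linarith

theorem propA (hT : T.IsTree) {S l} (hl : Leaf T S l) :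
    sg (col l) * phi T col (S.erase l) ≤ sg (col l) * phi T col S - 1 := by
  have := sum_le_of_inj (col := col) (EE T col (S.erase l) \ EE T col S) (col l)
    (fun v w => BS T col S v w ∧ ¬ BS T col (S.erase l) v w ∧ BS T col S w v) ?_ ?_
  · rw [phi_erase hl, mul_add, mul_sub, sg_sq]; linarith
  · intro v hv hc
    rw [mem_sdiff, mem_EE, mem_EE] at hv
    obtain ⟨w, u, h1, h2, h3, h4⟩ := new_ess hv.1 hv.2
    have hvl := (mem_erase.1 hv.1.1).1
    obtain ⟨-, i2, i3, -⟩ := lost hT hl h1 hvl h2
    obtain ⟨z, z1, z2⟩ := i3 hc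
    have hw : w ≠ l := by
      rintro rfl
      exact not_BS_leaf hl h1
    have b : BS T col S w v := .step w v u h1.mem.2.1 h1.mem.2.2.symm h3.mem.2.2 h4 h3
    refine ⟨w, ?_, fun h => i2 ⟨hc, h⟩, h1, h2, b⟩
    rw [mem_sdiff, mem_EE, mem_EE]
    exact ⟨(ES_of_not hv.1.1 (by simp [hw, h1.mem.2.1]) h1.mem.2.2 h2).2,
      fun h => z1 (h.2 _ _ z2 b)⟩
  · rintro v hv v' hv' w - - ⟨a1, a2, a3⟩ ⟨b1, b2, b3⟩
    rw [mem_sdiff, mem_EE, mem_EE] at hv hv'
    by_contra hne
    have hw : w ≠ l := by
      rintro rfl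
      exact not_BS_leaf hl a1
    have n : ¬ BS T col (S.erase l) w v' := fun h =>
      hne ((ES_of_not hv.1.1 (by simp [hw, a1.mem.2.1]) a1.mem.2.2 a2).1 _ h).symm
    have d1 := (lost hT hl b3 hw n).1
    have d2 := (lost hT hl b1 (mem_erase.1 hv'.1.1).1 b2).1
    omega

theorem propB (hT : T.IsTree) {S a} (hp : 0 < sg a * phi T col S) :
    ∃ l, Leaf T S l ∧ col l = a ∧ phi T col (S.erase l) = phi T col S - sg a := by
  classical
  by_contra hc
  push Not at hc
  have P1 : ∀ l, Leaf T S l → col l = a → ∃ y, ES T col S y ∧ col y ≠ a ∧ T.Adj l y ∧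
      ∀ v ∈ S, T.Adj v y → col v = a → v = l := by
    intro l hl hcl
    have hne : (EE T col (S.erase l) \ EE T col S).Nonempty := by
      rw [nonempty_iff_ne_empty]
      intro he
      apply hc l hl hcl
      rw [phi_erase hl, he, hcl]; simp
    obtain ⟨v, hv⟩ := hne
    rw [mem_sdiff, mem_EE, mem_EE] at hv
    obtain ⟨w, u, h1, h2, -, -⟩ := new_ess hv.1 hv.2
    obtain ⟨-, -, -, x, y, x1, y1, x2, xy, yl, cx, cy, n⟩ :=
      lost hT hl h1 (mem_erase.1 hv.1.1).1 h2
    have xy' : col x = col y := by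
      revert cx cy; cases col x <;> cases col y <;> cases col l <;> simp
    have y2 : y ∈ S.erase l := by simp [y1, yl.ne]
    have x3 : x ∈ S.erase l := by simp [x1, x2]
    have key : ∀ u, BS T col S y u → u = x := by
      intro u hu
      by_cases hu' : BS T col (S.erase l) y u
      · exact (ES_of_not x3 y2 xy n).1 u hu'
      · have d := (lost hT hl hu yl.ne hu').1
        have e2 := hT.dist_eq_dist_add_one_of_adj l yl
        rw [dist_self] at e2
        have : u = l := par_unique hT l hu.mem.2.2 yl d (by rw [dist_self]; omega)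
        subst this
        exact absurd hu (not_BS_leaf hl)
    refine ⟨y, ⟨y1, fun u w a b => (key u a).trans (key w b).symm⟩, hcl ▸ cy, yl.symm, ?_⟩
    intro v' hv' ha hcv
    by_contra hne
    refine n (.base x y v' x3 y2 (by simp [hne, hv']) xy ha.symm ?_ xy' ?_)
    · rintro rfl
      exact cx (hcv.trans hcl.symm)
    · intro h
      exact cy (h.symm.trans (hcv.trans hcl.symm))
  have P2 : ∀ v ∈ S, ∀ c ∈ S, T.Adj v c → col v = a → ¬ BS T col S v c → col c ≠ a := by
    intro v hv c hcS hvc hcv hn hcc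
    obtain ⟨⟨x, y⟩, hm, hmax⟩ := exists_max_image ((S ×ˢ S).filter fun p : V × V =>
      T.Adj p.1 p.2 ∧ col p.1 = a ∧ col p.2 = a ∧ ¬ BS T col S p.1 p.2 ∧
        T.dist v p.1 < T.dist v p.2) (fun p => T.dist v p.2)
      ⟨(v, c), by
        have e2 := hT.dist_eq_dist_add_one_of_adj v hvc
        rw [dist_self] at e2
        simp only [mem_filter, mem_product, dist_self]
        exact ⟨⟨hv, hcS⟩, hvc, hcv, hcc, hn, by omega⟩⟩
    simp only [mem_filter, mem_product] at hm hmax
    obtain ⟨⟨x1, y1⟩, xy, cx, cy, n, d⟩ := hm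
    have key : ∀ z ∈ S, T.Adj y z → z = x := by
      intro z hz yz
      by_contra hne
      have e1 := hT.dist_eq_dist_add_one_of_adj v yz
      have d' : T.dist v y < T.dist v z := by
        by_contra h
        exact hne (par_unique hT v yz xy.symm (by omega) d)
      have cz : col z = a := by
        by_contra h
        exact n (.base x y z x1 y1 hz xy yz hne (cx.trans cy.symm) (cy ▸ h))
      have := hmax (y, z) ⟨⟨y1, hz⟩, yz, cy, cz, fun h => n (.step x y z x1 xy yz hne h), d'⟩
      simp only at this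
      omega
    obtain ⟨y', e, c', ad, -⟩ := P1 y ⟨y1, fun u hu w hw a b =>
      (key u hu a).trans (key w hw b).symm⟩ cy
    exact c' (key y' e.1 ad ▸ cx)
  obtain ⟨r⟩ := hT.connected.nonempty
  have := sum_le_of_inj (col := col) (EE T col S) a
    (fun v c => T.Adj v c ∧ ((∀ v' ∈ S, T.Adj v' c → col v' = a → v' = v) ∨
      (c ∈ S ∧ ¬ BS T col S v c ∧
        (T.dist r v < T.dist r c ∨ ∃ u, u ≠ c ∧ BS T col S v u)))) ?_ ?_
  · unfold phi at hp; omega
  · intro v hv hcv
    rw [mem_EE] at hv
    by_cases hl : Leaf T S v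
    · obtain ⟨y, e, c', ad, h⟩ := P1 v hl hcv
      exact ⟨y, mem_EE.2 e, c', ad, Or.inl h⟩
    · have : ∃ u ∈ S, ∃ w ∈ S, T.Adj v u ∧ T.Adj v w ∧ u ≠ w := by
        by_contra hc
        push Not at hc
        exact hl ⟨hv.1, hc⟩
      obtain ⟨u, u1, w, w1, au, aw, uw⟩ := this
      have fin : ∀ c ∈ S, T.Adj v c → ¬ BS T col S v c →
          (T.dist r v < T.dist r c ∨ ∃ u, u ≠ c ∧ BS T col S v u) → ∃ c ∈ EE T col S, col c ≠ a ∧
          T.Adj v c ∧ ((∀ v' ∈ S, T.Adj v' c → col v' = a → v' = v) ∨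
          (c ∈ S ∧ ¬ BS T col S v c ∧
          (T.dist r v < T.dist r c ∨ ∃ u, u ≠ c ∧ BS T col S v u))) := fun c c1 ac n h =>
        ⟨c, mem_EE.2 (ES_of_not hv.1 c1 ac n).2, P2 v hv.1 c c1 ac hcv n, ac, Or.inr ⟨c1, n, h⟩⟩
      by_cases bu : BS T col S v u
      · exact fin w w1 aw (fun h => uw (hv.2 _ _ bu h)) (Or.inr ⟨u, uw, bu⟩)
      by_cases bw : BS T col S v w
      · exact fin u u1 au bu (Or.inr ⟨w, uw.symm, bw⟩)
      have e1 := hT.dist_eq_dist_add_one_of_adj r au
      have e2 := hT.dist_eq_dist_add_one_of_adj r aw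
      by_cases d : T.dist r v < T.dist r u
      · exact fin u u1 au bu (Or.inl d)
      · refine fin w w1 aw bw (Or.inl ?_)
        by_contra d'
        exact uw (par_unique hT r au aw (by omega) (by omega))
  · rintro v hv v' hv' c cv cv' ⟨a1, h⟩ ⟨a2, h'⟩
    rw [mem_EE] at hv hv'
    rcases h with h | ⟨c1, n, h⟩
    · exact (h v' hv'.1 a2 cv').symm
    rcases h' with h' | ⟨-, n', h'⟩
    · exact h' v hv.1 a1 cv
    by_contra hne
    rcases h with h | ⟨u, u1, u2⟩
    · rcases h' with h' | ⟨u, u1, u2⟩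
      · exact hne (par_unique hT r a1.symm a2.symm h h')
      · exact n (.step v c v' hv.1 a1 a2.symm (Ne.symm hne)
          (.step c v' u c1 a2.symm u2.mem.2.2 u1 u2))
    · exact n' (.step v' c v hv'.1 a2 a1.symm hne (.step c v u c1 a1.symm u2.mem.2.2 u1 u2))

theorem main (hT : T.IsTree) (p : Finset V × ℤ) (a : Bool) :
    (0 < sg a * (phi T col p.1 + p.2) → Out (Mv T col) true a p) ∧
      (sg a * (phi T col p.1 + p.2) ≤ 0 → Out (Mv T col) false a p) := by
  refine out_of (Mv T col) (fun p => p.1.card + p.2.natAbs) (fun p => phi T col p.1 + p.2)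
    ?_ ?_ ?_ p a
  · rintro a ⟨S, k⟩ q (⟨v, h1, h2, rfl⟩ | ⟨h1, rfl⟩)
    · have := card_erase_lt_of_mem h1.1
      simp only at this ⊢
      omega
    · cases a <;> simp [sg] at h1 ⊢ <;> omega
  · rintro a ⟨S, k⟩ q (⟨v, h1, rfl, rfl⟩ | ⟨h1, rfl⟩)
    · have := propA (col := col) hT h1
      simp only [mul_add] at this ⊢
      linarith
    · simp only [mul_add, mul_sub, sg_sq]; linarith
  · rintro a ⟨S, k⟩ h
    simp only [mul_add] at h ⊢
    by_cases hk : 0 < sg a * k
    · exact ⟨_, Or.inr ⟨hk, rfl⟩, by simp only [mul_sub, sg_sq]; linarith⟩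
    · obtain ⟨l, h1, h2, h3⟩ := propB (col := col) (S := S) (a := a) hT (by linarith)
      exact ⟨_, Or.inl ⟨l, h1, h2, rfl⟩, by simp only [h3, mul_sub, sg_sq]; linarith⟩

omit [DecidableEq V] in
theorem BS_univ [Fintype V] {v w} : BS T col univ v w ↔ Bad T col v w := by
  constructor
  · intro h
    induction h with
    | base v w z a b c d e f g i => exact .base v w z d e f g i
    | step v w z a b c d e ih => exact .step v w z b c d ih
  · intro h
    induction h with
    | base v w z d e f g i => exact .base v w z (by simp) (by simp) (by simp) d e f g i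
    | step v w z b c d e ih => exact .step v w z (by simp) b c d ih

open Classical in
theorem result {V : Type} [Fintype V] [DecidableEq V] (T : SimpleGraph V) (hT : T.IsTree)
    (col : V → Bool) (n : ℤ) :
    HasValue T col n ↔
      n = ((univ.filter fun v => Ess T col v ∧ col v = true).card : ℤ) -
        ((univ.filter fun v => Ess T col v ∧ col v = false).card : ℤ) := by
  have e : phi T col univ = ((univ.filter fun v => Ess T col v ∧ col v = true).card : ℤ) -
        ((univ.filter fun v => Ess T col v ∧ col v = false).card : ℤ) := by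
    have : ∀ v, ES T col univ v ↔ Ess T col v := fun v => by simp [ES, Ess, BS_univ]
    simp only [phi, EE, card_filter, sum_filter, this]
    push_cast
    rw [← sum_sub_distrib]
    refine sum_congr rfl fun v _ => ?_
    by_cases h : Ess T col v <;> cases col v <;> simp [h, sg]
  rw [← e]
  constructor
  · intro h
    have : ∀ a, sg a * (phi T col univ + -n) ≤ 0 := fun a => by
      by_contra hc
      exact out_excl (h a) ((main hT (univ, -n) a).1 (by simpa using hc))
    have h1 := this true
    have h2 := this false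
    simp only [sg] at h1 h2
    simp at h1 h2
    omega
  · rintro rfl a
    exact (main hT (univ, _) a).2 (by simp)

end Pool.Agent.Results.MP_1304b2_co.Formula
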